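import Mathlib

/-!
# MP_15f3fd_al: the Fitting ideal of the Koszul module of a graph

The equality `Fitt W_Γ = I_{𝒯(Γ)} · 𝔪^{|Ē| - n + 2}` holds for every graph with `|Ē| ≥ n - 2`.

Proof: all maximal minors are scalar multiples of monomials, so both ideals are monomial. The
Cauchy-Binet formula applied to `∂₃ D₃ ∂₃ᵀ` (rows: non-edges, `D₃` = weights `z_a z_b z_c`), the
identity `∂₃ D₃ ∂₃ᵀ + (down Laplacian) = (∑ z) D₂`, the Weinstein-Aronszajn identity and the
weighted matrix-tree theorem give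
`∑_C det(B_C)² z^{deg C} = z^{Ē} · (∑ z)^{|Ē| - n + 2} · ∑_T m_T(z)`
up to positive constants; comparing supports gives the equality of the two sets of monomials.
-/

set_option autoImplicit false
set_option linter.unusedSectionVars false

open Matrix Finset MvPolynomial

namespace Pool.Agent.Results.MP_15f3fd_al.FittingEquality

/-- Non-edges of `Γ`, as pairs `i < j`; they index the rows of the presentation matrix. -/
abbrev NonEdge {n : ℕ} (Γ : SimpleGraph (Fin n)) : Type :=
  {p : Fin n × Fin n // p.1 < p.2 ∧ ¬ Γ.Adj p.1 p.2}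

/-- Triples `a < b < c`; they index the columns of the presentation matrix. -/
abbrev Triple (n : ℕ) : Type :=
  {t : Fin n × Fin n × Fin n // t.1 < t.2.1 ∧ t.2.1 < t.2.2}

/-- The presentation matrix of the Koszul module `W_Γ`: the column of `a < b < c` is the image of
`x_c e_a∧e_b - x_b e_a∧e_c + x_a e_b∧e_c` in `(⋀²V/K_Γ) ⊗ S`, written in the basis of
non-edges. -/
noncomputable def koszulMatrix (k : Type*) [Field k] {n : ℕ} (Γ : SimpleGraph (Fin n)) :
    Matrix (NonEdge Γ) (Triple n) (MvPolynomial (Fin n) k) := fun p t =>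
  (if p.1 = (t.1.1, t.1.2.1) then X t.1.2.2 else 0)
    - (if p.1 = (t.1.1, t.1.2.2) then X t.1.2.1 else 0)
    + (if p.1 = (t.1.2.1, t.1.2.2) then X t.1.1 else 0)

open scoped Classical in
/-- The zeroth Fitting ideal of `W_Γ`: generated by the maximal minors of the presentation
matrix. -/
noncomputable def fittIdeal (k : Type*) [Field k] {n : ℕ} (Γ : SimpleGraph (Fin n)) :
    Ideal (MvPolynomial (Fin n) k) :=
  Ideal.span (Set.range fun c : NonEdge Γ ↪ Triple n =>
    ((koszulMatrix k Γ).submatrix id c).det)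

/-- `m_T = ∏ x_i ^ (deg_T(i) - 1)`. -/
noncomputable def treeMonomial (k : Type*) [Field k] {n : ℕ} (T : SimpleGraph (Fin n)) :
    MvPolynomial (Fin n) k :=
  ∏ i, X i ^ ((T.neighborSet i).ncard - 1)

/-- The ideal generated by the `m_T`, `T` a spanning tree of `Γ`. -/
noncomputable def treeIdeal (k : Type*) [Field k] {n : ℕ} (Γ : SimpleGraph (Fin n)) :
    Ideal (MvPolynomial (Fin n) k) :=
  Ideal.span {f | ∃ T : SimpleGraph (Fin n), T ≤ Γ ∧ T.IsTree ∧ f = treeMonomial k T}

/-- The ideal `(x_1, …, x_n)`. -/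
noncomputable def maxIdeal (k : Type*) [Field k] (n : ℕ) : Ideal (MvPolynomial (Fin n) k) :=
  Ideal.span (Set.range X)

section CB

variable {m ι R : Type*} [Fintype m] [DecidableEq m] [Fintype ι] [DecidableEq ι] [CommRing R]

theorem cb_aux (P : Matrix m ι R) (Q : Matrix ι m R) :
    (P * Q).det = ∑ a : m → ι, (P.submatrix id a).det * ∏ i, Q (a i) i := by
  rw [det_apply']
  have h1 : ∀ σ : Equiv.Perm m, ∏ i, (P * Q) (σ i) i =
      ∑ a : m → ι, (∏ i, P (σ i) (a i)) * ∏ i, Q (a i) i := by
    intro σ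
    simp only [Matrix.mul_apply]
    rw [Finset.prod_univ_sum, Fintype.piFinset_univ]
    apply Finset.sum_congr rfl
    intro a _
    rw [Finset.prod_mul_distrib]
  simp only [h1, Finset.mul_sum]
  rw [Finset.sum_comm]
  apply Finset.sum_congr rfl
  intro a _
  rw [det_apply', Finset.sum_mul]
  apply Finset.sum_congr rfl
  intro σ _
  simp only [submatrix_apply, id]
  ring

/-- Cauchy-Binet with ordered tuples. -/
theorem cauchyBinet (P : Matrix m ι R) (Q : Matrix ι m R) :
    ((Fintype.card m).factorial : R) * (P * Q).det =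
      ∑ a : m → ι, (P.submatrix id a).det * (Q.submatrix a id).det := by
  have h1 : ∀ τ : Equiv.Perm m, (P * Q).det =
      ∑ a : m → ι, (P.submatrix id a).det *
        (((Equiv.Perm.sign τ : ℤ) : R) * ∏ i, Q (a (τ i)) i) := by
    intro τ
    rw [cb_aux, ← Equiv.sum_comp (Equiv.arrowCongr τ.symm (Equiv.refl ι))]
    apply Finset.sum_congr rfl
    intro a _
    have e : (Equiv.arrowCongr τ.symm (Equiv.refl ι)) a = a ∘ τ := by
      ext i
      simp [Equiv.arrowCongr]
    rw [e]
    have e2 : P.submatrix id (a ∘ τ) = (P.submatrix id a).submatrix id τ := rfl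
    rw [e2, Matrix.det_permute']
    simp only [Function.comp_apply]
    ring
  calc ((Fintype.card m).factorial : R) * (P * Q).det = ∑ τ : Equiv.Perm m, (P * Q).det := by
        rw [Finset.sum_const, Finset.card_univ, Fintype.card_perm, nsmul_eq_mul]
    _ = ∑ τ : Equiv.Perm m, ∑ a : m → ι, (P.submatrix id a).det *
      (((Equiv.Perm.sign τ : ℤ) : R) * ∏ i, Q (a (τ i)) i) :=
        Finset.sum_congr rfl (fun τ _ => h1 τ)
    _ = _ := by
        rw [Finset.sum_comm]
        apply Finset.sum_congr rfl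
        intro a _
        rw [← Finset.mul_sum, det_apply' (Q.submatrix a id)]
        rfl

/-- Cauchy-Binet for `P D Pᵀ` with `D` diagonal. -/
theorem cauchyBinet_diag (P : Matrix m ι R) (d : ι → R) :
    ((Fintype.card m).factorial : R) * (P * diagonal d * Pᵀ).det =
      ∑ a : m → ι, (P.submatrix id a).det ^ 2 * ∏ i, d (a i) := by
  rw [cauchyBinet]
  apply Finset.sum_congr rfl
  intro a _
  have h1 : (P * diagonal d).submatrix id a = P.submatrix id a * diagonal (fun i => d (a i)) := by
    ext i j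
    simp [Matrix.mul_diagonal]
  have h2 : Pᵀ.submatrix a id = (P.submatrix id a)ᵀ := rfl
  rw [h1, h2, det_mul, det_transpose, det_diagonal]
  ring

end CB

section Entry

variable {V R : Type*} [Fintype V] [CommRing R]

/-- the sum identity behind `∂₃ D₃ ∂₃ᵀ` -/
theorem sum_triple (f g : V → V → R) (z : V → R) (hf : ∀ a b, f a b = - f b a)
    (hg : ∀ a b, g a b = - g b a) :
    ∑ a, ∑ b, ∑ c, (f a b - f a c + f b c) * (z a * z b * z c) * (g a b - g a c + g b c) =
      3 * ((∑ a, z a) * ∑ a, ∑ b, f a b * g a b * (z a * z b)) -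
      6 * ∑ a, (∑ b, f a b * z b) * z a * (∑ b, g a b * z b) := by
  -- canonical sums
  have c12 : ∀ F : V → V → V → R, ∑ a, ∑ b, ∑ c, F a b c = ∑ a, ∑ b, ∑ c, F b a c := by
    intro F; rw [Finset.sum_comm]
  have c23 : ∀ F : V → V → V → R, ∑ a, ∑ b, ∑ c, F a b c = ∑ a, ∑ b, ∑ c, F a c b := by
    intro F
    exact Finset.sum_congr rfl fun a _ => Finset.sum_comm
  have hX : (∑ a, z a) * ∑ a, ∑ b, f a b * g a b * (z a * z b) =
      ∑ a, ∑ b, ∑ c, f a b * g a b * (z a * z b * z c) := by
    rw [Finset.mul_sum]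
    refine Finset.sum_congr rfl fun a _ => ?_
    rw [Finset.mul_sum]
    refine Finset.sum_congr rfl fun b _ => ?_
    rw [Finset.sum_mul]
    refine Finset.sum_congr rfl fun c _ => ?_
    ring
  have hY : ∑ a, (∑ b, f a b * z b) * z a * (∑ b, g a b * z b) =
      ∑ a, ∑ b, ∑ c, f a b * g a c * (z a * z b * z c) := by
    refine Finset.sum_congr rfl fun a _ => ?_
    rw [Finset.sum_mul, Finset.sum_mul]
    refine Finset.sum_congr rfl fun b _ => ?_
    rw [Finset.mul_sum]
    refine Finset.sum_congr rfl fun c _ => ?_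
    ring
  rw [hX, hY]
  set X := ∑ a, ∑ b, ∑ c, f a b * g a b * (z a * z b * z c) with hXd
  set Y := ∑ a, ∑ b, ∑ c, f a b * g a c * (z a * z b * z c) with hYd
  have e1 : ∑ a, ∑ b, ∑ c, f a c * g a c * (z a * z b * z c) = X := by
    rw [c23, hXd]
    refine Finset.sum_congr rfl fun a _ => Finset.sum_congr rfl fun b _ =>
      Finset.sum_congr rfl fun c _ => ?_
    ring
  have e2 : ∑ a, ∑ b, ∑ c, f b c * g b c * (z a * z b * z c) = X := by
    rw [c12, c23, hXd]
    refine Finset.sum_congr rfl fun a _ => Finset.sum_congr rfl fun b _ =>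
      Finset.sum_congr rfl fun c _ => ?_
    ring
  have y1 : ∑ a, ∑ b, ∑ c, f a c * g a b * (z a * z b * z c) = Y := by
    rw [c23, hYd]
    refine Finset.sum_congr rfl fun a _ => Finset.sum_congr rfl fun b _ =>
      Finset.sum_congr rfl fun c _ => ?_
    ring
  have y2 : ∑ a, ∑ b, ∑ c, f a b * g b c * (z a * z b * z c) = -Y := by
    rw [c12, hYd, ← Finset.sum_neg_distrib]
    refine Finset.sum_congr rfl fun a _ => ?_
    rw [← Finset.sum_neg_distrib]
    refine Finset.sum_congr rfl fun b _ => ?_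
    rw [← Finset.sum_neg_distrib]
    refine Finset.sum_congr rfl fun c _ => ?_
    rw [hf b a]; ring
  have y3 : ∑ a, ∑ b, ∑ c, f b c * g a b * (z a * z b * z c) = -Y := by
    rw [c12, c23, hYd, ← Finset.sum_neg_distrib]
    refine Finset.sum_congr rfl fun a _ => ?_
    rw [← Finset.sum_neg_distrib]
    refine Finset.sum_congr rfl fun b _ => ?_
    rw [← Finset.sum_neg_distrib]
    refine Finset.sum_congr rfl fun c _ => ?_
    rw [hg c a]; ring
  have y4 : ∑ a, ∑ b, ∑ c, f a c * g b c * (z a * z b * z c) = Y := by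
    rw [c23, c12, hYd]
    refine Finset.sum_congr rfl fun a _ => Finset.sum_congr rfl fun b _ =>
      Finset.sum_congr rfl fun c _ => ?_
    rw [hf b a, hg c a]; ring
  have y5 : ∑ a, ∑ b, ∑ c, f b c * g a c * (z a * z b * z c) = Y := by
    rw [c23, c12, c23, hYd]
    refine Finset.sum_congr rfl fun a _ => Finset.sum_congr rfl fun b _ =>
      Finset.sum_congr rfl fun c _ => ?_
    rw [hf b a, hg c a]; ring
  have key : ∑ a, ∑ b, ∑ c, (f a b - f a c + f b c) * (z a * z b * z c) *
      (g a b - g a c + g b c) =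
      ∑ a, ∑ b, ∑ c, (f a b * g a b * (z a * z b * z c) + f a c * g a c * (z a * z b * z c)
        + f b c * g b c * (z a * z b * z c) - f a b * g a c * (z a * z b * z c)
        - f a c * g a b * (z a * z b * z c) + f a b * g b c * (z a * z b * z c)
        + f b c * g a b * (z a * z b * z c) - f a c * g b c * (z a * z b * z c)
        - f b c * g a c * (z a * z b * z c)) := by
    refine Finset.sum_congr rfl fun a _ => Finset.sum_congr rfl fun b _ =>
      Finset.sum_congr rfl fun c _ => ?_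
    ring
  rw [key]
  simp only [Finset.sum_add_distrib, Finset.sum_sub_distrib]
  rw [e1, e2, y1, y2, y3, y4, y5, ← hXd, ← hYd]
  ring

end Entry

section Inc

variable {n : ℕ}

/-- antisymmetric delta function of a pair -/
def dl (p : Fin n × Fin n) (a b : Fin n) : ℤ :=
  (if p = (a, b) then 1 else 0) - (if p = (b, a) then 1 else 0)

theorem dl_anti (p : Fin n × Fin n) (a b : Fin n) : dl p a b = - dl p b a := by
  unfold dl; ring

/-- column of the integral boundary matrix at an ordered triple -/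
def col (p : Fin n × Fin n) (t : Fin n × Fin n × Fin n) : ℤ :=
  dl p t.1 t.2.1 - dl p t.1 t.2.2 + dl p t.2.1 t.2.2

/-- vertex-edge incidence -/
def inc (v : Fin n) (p : Fin n × Fin n) : ℤ :=
  (if p.2 = v then 1 else 0) - (if p.1 = v then 1 else 0)

variable {R : Type*} [CommRing R] (z : Fin n → R)

def w2 (p : Fin n × Fin n) : R := z p.1 * z p.2

def w3 (t : Fin n × Fin n × Fin n) : R := z t.1 * z t.2.1 * z t.2.2

def gf (v : Fin n) (p : Fin n × Fin n) : R :=
  (if p.1 = v then z p.2 else 0) - (if p.2 = v then z p.1 else 0)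

theorem sum_dl_mul (p : Fin n × Fin n) (F : Fin n → Fin n → R) :
    ∑ a, ∑ b, (dl p a b : R) * F a b = F p.1 p.2 - F p.2 p.1 := by
  obtain ⟨x, y⟩ := p
  simp only [dl, Int.cast_sub, Int.cast_ite, Int.cast_one, Int.cast_zero, sub_mul, ite_mul,
    one_mul, zero_mul, Finset.sum_sub_distrib, Prod.mk.injEq]
  congr 1
  · rw [Finset.sum_eq_single x, Finset.sum_eq_single y]
    · simp
    · intro b _ hb; simp [Ne.symm hb]
    · simp
    · intro b _ hb; simp [Ne.symm hb]
    · simp
  · rw [Finset.sum_eq_single y, Finset.sum_eq_single x]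
    · simp
    · intro b _ hb; simp [Ne.symm hb]
    · simp
    · intro b _ hb; simp [Ne.symm hb]
    · simp

theorem sum_dl_z (p : Fin n × Fin n) (a : Fin n) :
    ∑ b, (dl p a b : R) * z b = gf z a p := by
  obtain ⟨x, y⟩ := p
  simp only [dl, Int.cast_sub, Int.cast_ite, Int.cast_one, Int.cast_zero, sub_mul, ite_mul,
    one_mul, zero_mul, Finset.sum_sub_distrib, Prod.mk.injEq, gf]
  congr 1
  · by_cases h : x = a
    · simp [h]
    · simp [h]
  · by_cases h : y = a
    · simp [h]
    · simp [h]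

theorem dl_pair (p q : Fin n × Fin n) (hp : p.1 < p.2) (hq : q.1 < q.2) :
    dl q p.1 p.2 = if p = q then 1 else 0 := by
  obtain ⟨x, y⟩ := p
  obtain ⟨x', y'⟩ := q
  simp only at hp hq
  unfold dl
  have h : ¬ ((x', y') = (y, x)) := by
    intro h
    simp only [Prod.mk.injEq] at h
    rw [h.1, h.2] at hq
    exact absurd hp (not_lt.mpr hq.le)
  rw [if_neg h, sub_zero]
  by_cases h2 : (x', y') = (x, y)
  · rw [if_pos h2, if_pos h2.symm]
  · rw [if_neg h2, if_neg (fun h => h2 h.symm)]

/-- entry identity of the weighted up Laplacian -/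
theorem up_entry (p q : Fin n × Fin n) (hp : p.1 < p.2) (hq : q.1 < q.2) :
    ∑ t, (col p t : R) * w3 z t * (col q t : R) =
      6 * ((∑ a, z a) * (if p = q then w2 z p else 0) - ∑ v, gf z v p * z v * gf z v q) := by
  rw [Fintype.sum_prod_type]
  simp_rw [Fintype.sum_prod_type]
  have h := sum_triple (fun a b => (dl p a b : R)) (fun a b => (dl q a b : R)) z
    (fun a b => by rw [dl_anti p a b]; push_cast; ring)
    (fun a b => by rw [dl_anti q a b]; push_cast; ring)
  have h1 : ∑ x, ∑ x_1, ∑ x_2, (col p (x, x_1, x_2) : R) * w3 z (x, x_1, x_2) *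
      (col q (x, x_1, x_2) : R) =
      ∑ a, ∑ b, ∑ c, ((dl p a b : R) - (dl p a c : R) + (dl p b c : R)) * (z a * z b * z c) *
        ((dl q a b : R) - (dl q a c : R) + (dl q b c : R)) := by
    refine Finset.sum_congr rfl fun a _ => Finset.sum_congr rfl fun b _ =>
      Finset.sum_congr rfl fun c _ => ?_
    simp only [col, w3]
    push_cast
    ring
  rw [h1, h]
  have h2 : ∑ a, ∑ b, (dl p a b : R) * (dl q a b : R) * (z a * z b) =
      2 * (if p = q then w2 z p else 0) := by
    have h3 := sum_dl_mul p (fun a b => (dl q a b : R) * (z a * z b))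
    have h4 : ∑ a, ∑ b, (dl p a b : R) * (dl q a b : R) * (z a * z b) =
        ∑ a, ∑ b, (dl p a b : R) * ((dl q a b : R) * (z a * z b)) := by
      refine Finset.sum_congr rfl fun a _ => Finset.sum_congr rfl fun b _ => ?_
      ring
    rw [h4, h3, dl_anti q p.2 p.1, dl_pair p q hp hq]
    split_ifs with hpq
    · simp only [w2]; push_cast; ring
    · simp
  rw [h2]
  simp_rw [sum_dl_z]
  ring

end Inc

variable {n : ℕ}

/-- edges as pairs -/
abbrev EdgeP (Γ : SimpleGraph (Fin n)) : Type :=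
  {p : Fin n × Fin n // p.1 < p.2 ∧ Γ.Adj p.1 p.2}

section
variable {R : Type*} [CommRing R] (z : Fin n → R)

theorem gf_mul (v : Fin n) (p : Fin n × Fin n) : gf z v p * z v = - ((inc v p : R) * w2 z p) := by
  unfold gf inc w2
  by_cases h1 : p.1 = v
  · by_cases h2 : p.2 = v
    · simp [h1, h2]
    · simp [h1, h2]; ring
  · by_cases h2 : p.2 = v
    · simp [h1, h2]
    · simp [h1, h2]

theorem sum_all_pairs2 (v w : Fin n) :
    ∑ a, ∑ b, (inc v (a, b) : R) * (z a * z b) * (inc w (a, b) : R) =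
      2 * ((if v = w then (∑ a, z a) * z v else 0) - z v * z w) := by
  have h0 : ∀ a b : Fin n, (inc v (a, b) : R) * (z a * z b) * (inc w (a, b) : R) =
      (if b = v then (if b = w then z a * z b else 0) else 0)
      + (if a = v then (if a = w then z a * z b else 0) else 0)
      - (if b = v then (if a = w then z a * z b else 0) else 0)
      - (if a = v then (if b = w then z a * z b else 0) else 0) := by
    intro a b
    simp only [inc]
    push_cast
    split_ifs <;> ring
  simp_rw [h0]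
  simp only [Finset.sum_add_distrib, Finset.sum_sub_distrib]
  have t1 : ∑ a, ∑ b, (if b = v then (if b = w then z a * z b else 0) else 0) =
      (if v = w then (∑ a, z a) * z v else 0) := by
    simp only [Finset.sum_ite_eq', Finset.mem_univ, if_true]
    split_ifs with h
    · rw [Finset.sum_mul]
    · simp
  have t2 : ∑ a, ∑ b, (if a = v then (if a = w then z a * z b else 0) else 0) =
      (if v = w then (∑ a, z a) * z v else 0) := by
    rw [Finset.sum_comm]
    simp only [Finset.sum_ite_eq', Finset.mem_univ, if_true]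
    split_ifs with h
    · rw [Finset.sum_mul]; exact Finset.sum_congr rfl fun _ _ => mul_comm _ _
    · simp
  have t3 : ∑ a, ∑ b, (if b = v then (if a = w then z a * z b else 0) else 0) = z v * z w := by
    simp only [Finset.sum_ite_eq', Finset.mem_univ, if_true]
    ring
  have t4 : ∑ a, ∑ b, (if a = v then (if b = w then z a * z b else 0) else 0) = z v * z w := by
    rw [Finset.sum_comm]
    simp only [Finset.sum_ite_eq', Finset.mem_univ, if_true]
  rw [t1, t2, t3, t4]
  ring

end

theorem sum_sub {α R : Type*} [Fintype α] [AddCommMonoid R] (P : α → Prop) [DecidablePred P]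
    (f : α → R) :
    ∑ p : {p // P p}, f p.1 = ∑ p, if P p then f p else 0 := by
  rw [← Finset.sum_filter]
  exact (Finset.sum_subtype (Finset.univ.filter P) (by simp) f).symm

section
variable {K : Type*} [Field K] [CharZero K] (z : Fin n → K)

theorem sum_lt_pairs (v w : Fin n) :
    ∑ p : Fin n × Fin n, (if p.1 < p.2 then (inc v p : K) * w2 z p * (inc w p : K) else 0) =
      (if v = w then (∑ a, z a) * z v else 0) - z v * z w := by
  have h := sum_all_pairs2 z v w
  have h2 : ∑ a, ∑ b, (inc v (a, b) : K) * (z a * z b) * (inc w (a, b) : K) =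
      2 * ∑ p : Fin n × Fin n, (if p.1 < p.2 then (inc v p : K) * w2 z p * (inc w p : K) else 0) := by
    rw [Fintype.sum_prod_type]
    have h3 : ∀ a b : Fin n, (inc v (a, b) : K) * (z a * z b) * (inc w (a, b) : K) =
        (if a < b then (inc v (a, b) : K) * w2 z (a, b) * (inc w (a, b) : K) else 0) +
        (if b < a then (inc v (b, a) : K) * w2 z (b, a) * (inc w (b, a) : K) else 0) := by
      intro a b
      rcases lt_trichotomy a b with hab | hab | hab
      · rw [if_pos hab, if_neg (not_lt.mpr hab.le)]; simp [w2]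
      · subst hab
        simp [inc]
      · rw [if_neg (not_lt.mpr hab.le), if_pos hab]
        simp only [w2, inc]
        push_cast
        ring
    simp_rw [h3]
    simp only [Finset.sum_add_distrib]
    rw [Finset.sum_comm (f := fun a b =>
      (if b < a then (inc v (b, a) : K) * w2 z (b, a) * (inc w (b, a) : K) else 0))]
    ring
  rw [h2] at h
  exact mul_left_cancel₀ two_ne_zero h

open scoped Classical in
theorem sum_split (Γ : SimpleGraph (Fin n)) (v w : Fin n) :
    ∑ p : NonEdge Γ, (inc v p.1 : K) * w2 z p.1 * (inc w p.1 : K) +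
    ∑ p : EdgeP Γ, (inc v p.1 : K) * w2 z p.1 * (inc w p.1 : K) =
      (if v = w then (∑ a, z a) * z v else 0) - z v * z w := by
  rw [← sum_lt_pairs z v w]
  rw [sum_sub (fun p : Fin n × Fin n => p.1 < p.2 ∧ ¬ Γ.Adj p.1 p.2)
      (fun p => (inc v p : K) * w2 z p * (inc w p : K)),
    sum_sub (fun p : Fin n × Fin n => p.1 < p.2 ∧ Γ.Adj p.1 p.2)
      (fun p => (inc v p : K) * w2 z p * (inc w p : K)), ← Finset.sum_add_distrib]
  refine Finset.sum_congr rfl fun p _ => ?_
  by_cases h1 : p.1 < p.2 <;> by_cases h2 : Γ.Adj p.1 p.2 <;> simp [h1, h2]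

open scoped Classical in
/-- the matrix `G` -/
noncomputable def G (Γ : SimpleGraph (Fin n)) : Matrix (Fin n) (NonEdge Γ) K := fun v p => gf z v p.1

open scoped Classical in
/-- weighted Laplacian plus `z zᵀ` -/
noncomputable def LP (Γ : SimpleGraph (Fin n)) : Matrix (Fin n) (Fin n) K := fun v w =>
  ∑ p : EdgeP Γ, (inc v p.1 : K) * w2 z p.1 * (inc w p.1 : K) + z v * z w

open scoped Classical in
theorem det_low (Γ : SimpleGraph (Fin n)) (hz : ∀ v, z v ≠ 0) (hs : ∑ a, z a ≠ 0) :
    (diagonal (fun p : NonEdge Γ => (∑ a, z a) * w2 z p.1) - (G z Γ)ᵀ * diagonal z * G z Γ).det *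
      ((∑ a, z a) ^ n * ∏ v, z v) =
      ((∑ a, z a) ^ Fintype.card (NonEdge Γ) * ∏ p : NonEdge Γ, w2 z p.1) * (LP z Γ).det := by
  set s := ∑ a, z a with hsd
  have hw : ∀ p : NonEdge Γ, s * w2 z p.1 ≠ 0 := fun p =>
    mul_ne_zero hs (mul_ne_zero (hz _) (hz _))
  have e1 : (diagonal (fun p : NonEdge Γ => s * w2 z p.1) - (G z Γ)ᵀ * diagonal z * G z Γ) =
      diagonal (fun p : NonEdge Γ => s * w2 z p.1) *
        (1 - (diagonal (fun p : NonEdge Γ => (s * w2 z p.1)⁻¹) * (G z Γ)ᵀ) *
          (diagonal z * G z Γ)) := by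
    have e0 : diagonal (fun p : NonEdge Γ => s * w2 z p.1) *
        diagonal (fun p : NonEdge Γ => (s * w2 z p.1)⁻¹) = 1 := by
      rw [diagonal_mul_diagonal]
      rw [← diagonal_one]
      congr 1
      funext p
      exact mul_inv_cancel₀ (hw p)
    rw [Matrix.mul_sub, Matrix.mul_one, ← Matrix.mul_assoc, ← Matrix.mul_assoc,
      ← Matrix.mul_assoc, e0, Matrix.one_mul]
  have e2 : (1 - (diagonal z * G z Γ) *
      (diagonal (fun p : NonEdge Γ => (s * w2 z p.1)⁻¹) * (G z Γ)ᵀ)) *
      diagonal (fun v => s * z v) = LP z Γ := by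
    ext v w
    rw [Matrix.mul_diagonal, Matrix.sub_apply, Matrix.mul_apply]
    have hsp := sum_split z Γ v w
    have hY : (∑ j : NonEdge Γ, (diagonal z * G z Γ) v j *
        (diagonal (fun p : NonEdge Γ => (s * w2 z p.1)⁻¹) * (G z Γ)ᵀ) j w) * (s * z w) =
        ∑ p : NonEdge Γ, (inc v p.1 : K) * w2 z p.1 * (inc w p.1 : K) := by
      rw [Finset.sum_mul]
      refine Finset.sum_congr rfl fun p _ => ?_
      rw [Matrix.diagonal_mul, Matrix.diagonal_mul, Matrix.transpose_apply]
      have g1 := gf_mul z v p.1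
      have g2 := gf_mul z w p.1
      have hwp : w2 z p.1 ≠ 0 := mul_ne_zero (hz _) (hz _)
      have : z v * G z Γ v p * ((s * w2 z p.1)⁻¹ * G z Γ w p) * (s * z w) =
          (gf z v p.1 * z v) * (gf z w p.1 * z w) * (w2 z p.1)⁻¹ := by
        simp only [G]
        field_simp
      rw [this, g1, g2]
      field_simp
    rw [sub_mul, hY, Matrix.one_apply]
    simp only [LP]
    rw [show (if v = w then (1 : K) else 0) * (s * z w) = if v = w then s * z v else 0 by
      split_ifs with h
      · rw [h]; ring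
      · ring]
    linear_combination -hsp
  have e3 := congrArg Matrix.det e2
  rw [det_mul, det_diagonal, Finset.prod_mul_distrib, Finset.prod_const, Finset.card_univ,
    Fintype.card_fin] at e3
  rw [e1, det_mul, det_diagonal, det_one_sub_mul_comm, ← e3, Finset.prod_mul_distrib,
    Finset.prod_const, Finset.card_univ]
  ring

end

section
variable {K : Type*} [Field K] [CharZero K] (z : Fin n → K)

/-- reduced incidence matrix with an extra column -/
def ah [NeZero n] (Γ : SimpleGraph (Fin n)) : Matrix (Fin n) (EdgeP Γ ⊕ Unit) ℤ := fun v e =>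
  Sum.elim (fun e => if v = 0 then 0 else inc v e.1) (fun _ => if v = 0 then 1 else 0) e

/-- weights of the columns -/
def dw {R : Type*} [CommRing R] (z : Fin n → R) (Γ : SimpleGraph (Fin n)) : EdgeP Γ ⊕ Unit → R :=
  Sum.elim (fun e => w2 z e.1) (fun _ => 1)

theorem sum_inc (p : Fin n × Fin n) : ∑ v, inc v p = 0 := by
  simp [inc]

open scoped Classical in
theorem det_LP [NeZero n] (Γ : SimpleGraph (Fin n)) :
    (LP z Γ).det = (∑ a, z a) ^ 2 *
      (((ah Γ).map (Int.cast : ℤ → K)) * diagonal (dw z Γ) * ((ah Γ).map (Int.cast : ℤ → K))ᵀ).det := by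
  set s := ∑ a, z a with hsd
  set Ah : Matrix (Fin n) (EdgeP Γ ⊕ Unit) K := (ah Γ).map (Int.cast : ℤ → K) with hAh
  let A : Matrix (Fin n) (EdgeP Γ ⊕ Unit) K := fun v e =>
    Sum.elim (fun e => (inc v e.1 : K)) (fun _ => z v) e
  let U : Matrix (Fin n) (Fin n) K := fun v w => if v = 0 then 1 else if v = w then 1 else 0
  let S : Matrix (Fin n) (Fin n) K := fun v w =>
    if w = 0 then (if v = 0 then s else z v) else if v = w then 1 else 0
  have hLP : LP z Γ = A * diagonal (dw z Γ) * Aᵀ := by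
    ext v w
    rw [Matrix.mul_apply, Fintype.sum_sum_type]
    simp only [Matrix.mul_diagonal, Matrix.transpose_apply]
    simp only [A, Sum.elim_inl, Sum.elim_inr, dw, LP, mul_one, Finset.univ_unique,
      Finset.sum_singleton]
  have hUA : U * A = S * Ah := by
    ext v e
    rw [Matrix.mul_apply, Matrix.mul_apply]
    rcases e with e | e
    · simp only [A, U, S, hAh, Matrix.map_apply, ah, Sum.elim_inl]
      by_cases hv : v = 0
      · subst hv
        have h1 := sum_inc e.1
        have h2 : (∑ w, (inc w e.1 : K)) = 0 := by exact_mod_cast h1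
        simp only [if_true, one_mul, h2]
        symm
        apply Finset.sum_eq_zero
        intro w _
        by_cases hw : w = 0
        · simp [hw]
        · simp [hw, Ne.symm hw]
      · simp only [hv, if_false]
        rw [Finset.sum_eq_single v, Finset.sum_eq_single v]
        · simp [hv]
        · intro w _ hw
          by_cases hw0 : w = 0
          · simp [hw0]
          · simp [hw0, Ne.symm hw]
        · simp
        · intro w _ hw
          simp [Ne.symm hw]
        · simp
    · simp only [A, U, S, hAh, Matrix.map_apply, ah, Sum.elim_inr]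
      by_cases hv : v = 0
      · subst hv
        rw [Finset.sum_eq_single (a := (0 : Fin n)) (f := fun x =>
          (if x = 0 then if (0 : Fin n) = 0 then s else z 0 else if 0 = x then 1 else 0) *
            (((if x = 0 then 1 else 0 : ℤ)) : K))]
        · simp [hsd]
        · intro w _ hw
          simp [hw]
        · simp
      · simp only [hv, if_false]
        rw [Finset.sum_eq_single v, Finset.sum_eq_single (0 : Fin n)]
        · simp
        · intro w _ hw
          simp [hw]
        · simp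
        · intro w _ hw
          simp [Ne.symm hw]
        · simp
  have hU : U.det = 1 := by
    rw [Matrix.det_of_isUpperTriangular]
    · apply Finset.prod_eq_one
      intro i _
      simp [U]
    · intro i j hij
      have hij' : j < i := hij
      have hi : i ≠ 0 := by
        rintro rfl
        exact absurd hij' (by simp)
      simp [U, hi, (ne_of_lt hij').symm]
  have hS : S.det = s := by
    rw [Matrix.det_of_isLowerTriangular]
    · rw [Finset.prod_eq_single (0 : Fin n)]
      · simp [S]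
      · intro i _ hi
        simp [S, hi]
      · simp
    · intro i j hij
      have hij' : i < j := hij
      have hj : j ≠ 0 := by
        rintro rfl
        exact absurd hij' (by simp)
      simp [S, hj, ne_of_lt hij']
  have h1 : U * LP z Γ * Uᵀ = S * (Ah * diagonal (dw z Γ) * Ahᵀ) * Sᵀ := by
    have : U * LP z Γ * Uᵀ = (U * A) * diagonal (dw z Γ) * (U * A)ᵀ := by
      rw [hLP, Matrix.transpose_mul]
      simp only [Matrix.mul_assoc]
    rw [this, hUA, Matrix.transpose_mul]
    simp only [Matrix.mul_assoc]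
  have h2 := congrArg Matrix.det h1
  rw [det_mul, det_mul, det_mul, det_mul, det_transpose, det_transpose, hU, hS] at h2
  linear_combination h2

end


/-- integral boundary matrix, columns = all ordered triples -/
def bm (Γ : SimpleGraph (Fin n)) : Matrix (NonEdge Γ) (Fin n × Fin n × Fin n) ℤ :=
  fun p t => col p.1 t

section
variable {K : Type*} [Field K] [CharZero K] (z : Fin n → K)

open scoped Classical in
theorem bdb (Γ : SimpleGraph (Fin n)) :
    ((bm Γ).map (Int.cast : ℤ → K)) * diagonal (w3 z) * ((bm Γ).map (Int.cast : ℤ → K))ᵀ =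
      (6 : K) • (diagonal (fun p : NonEdge Γ => (∑ a, z a) * w2 z p.1) -
        (G z Γ)ᵀ * diagonal z * G z Γ) := by
  ext p q
  rw [Matrix.mul_apply]
  simp only [Matrix.mul_diagonal, Matrix.transpose_apply, Matrix.map_apply, Matrix.smul_apply,
    Matrix.sub_apply, smul_eq_mul]
  rw [Matrix.mul_apply]
  simp only [Matrix.mul_diagonal, Matrix.transpose_apply, G]
  have h := up_entry z p.1 q.1 p.2.1 q.2.1
  simp only [bm]
  rw [h]
  congr 2
  rw [Matrix.diagonal_apply]
  by_cases hpq : p = q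
  · simp [hpq]
  · have : ¬ (p.1 = q.1) := fun h => hpq (Subtype.ext h)
    simp [hpq, this]

open scoped Classical in
theorem main_field [NeZero n] (Γ : SimpleGraph (Fin n)) (hz : ∀ v, z v ≠ 0) (hs : ∑ a, z a ≠ 0)
    (hcard : n ≤ Fintype.card (NonEdge Γ) + 2) :
    (n.factorial : K) * (∏ v, z v) *
      ∑ c : NonEdge Γ → (Fin n × Fin n × Fin n),
        (((bm Γ).submatrix id c).det : K) ^ 2 * ∏ p, w3 z (c p) =
    6 ^ Fintype.card (NonEdge Γ) * ((Fintype.card (NonEdge Γ)).factorial : K) *
      (∑ a, z a) ^ (Fintype.card (NonEdge Γ) + 2 - n) * (∏ p : NonEdge Γ, w2 z p.1) *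
      ∑ f : Fin n → EdgeP Γ ⊕ Unit, (((ah Γ).submatrix id f).det : K) ^ 2 * ∏ v, dw z Γ (f v) := by
  set m := Fintype.card (NonEdge Γ) with hm
  have cb1 := cauchyBinet_diag ((bm Γ).map (Int.cast : ℤ → K)) (w3 z)
  have cb2 := cauchyBinet_diag ((ah Γ).map (Int.cast : ℤ → K)) (dw z Γ)
  rw [Fintype.card_fin] at cb2
  have k1 : ∀ c : NonEdge Γ → (Fin n × Fin n × Fin n),
      (((bm Γ).map (Int.cast : ℤ → K)).submatrix id c).det = (((bm Γ).submatrix id c).det : K) := by
    intro c
    have := (Int.castRingHom K).map_det ((bm Γ).submatrix id c)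
    simp only [eq_intCast] at this
    rw [this]
    rfl
  have k2 : ∀ f : Fin n → EdgeP Γ ⊕ Unit,
      (((ah Γ).map (Int.cast : ℤ → K)).submatrix id f).det = (((ah Γ).submatrix id f).det : K) := by
    intro c
    have := (Int.castRingHom K).map_det ((ah Γ).submatrix id c)
    simp only [eq_intCast] at this
    rw [this]
    rfl
  simp_rw [k1] at cb1
  simp_rw [k2] at cb2
  rw [← cb1, ← cb2, bdb, det_smul]
  have h1 := det_low z Γ hz hs
  have h2 := det_LP z Γ
  rw [h2] at h1
  set s := ∑ a, z a with hsd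
  set T := (((ah Γ).map (Int.cast : ℤ → K)) * diagonal (dw z Γ) *
    ((ah Γ).map (Int.cast : ℤ → K))ᵀ).det with hT
  set L := (diagonal (fun p : NonEdge Γ => s * w2 z p.1) - (G z Γ)ᵀ * diagonal z * G z Γ).det with hL
  have hsn : s ^ n ≠ 0 := pow_ne_zero _ hs
  have hpow : s ^ m * s ^ 2 = s ^ (m + 2 - n) * s ^ n := by
    rw [← pow_add, ← pow_add]
    congr 1
    omega
  apply mul_right_cancel₀ hsn
  rw [← hm] at *
  have h3 : L * (s ^ n * ∏ v, z v) = (s ^ (m + 2 - n) * s ^ n) * (∏ p : NonEdge Γ, w2 z p.1) * T := by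
    rw [h1, ← hpow]; ring
  linear_combination (6 ^ m * (m.factorial : K) * (n.factorial : K)) * h3

end


section Poly

open scoped Classical in
theorem main_poly [NeZero n] (Γ : SimpleGraph (Fin n))
    (hcard : n ≤ Fintype.card (NonEdge Γ) + 2) :
    (n.factorial : MvPolynomial (Fin n) ℚ) * (∏ v, X v) *
      ∑ c : NonEdge Γ → (Fin n × Fin n × Fin n),
        (((bm Γ).submatrix id c).det : MvPolynomial (Fin n) ℚ) ^ 2 *
          ∏ p, w3 (X : Fin n → MvPolynomial (Fin n) ℚ) (c p) =
    6 ^ Fintype.card (NonEdge Γ) *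
      ((Fintype.card (NonEdge Γ)).factorial : MvPolynomial (Fin n) ℚ) *
      (∑ a, X a) ^ (Fintype.card (NonEdge Γ) + 2 - n) *
      (∏ p : NonEdge Γ, w2 (X : Fin n → MvPolynomial (Fin n) ℚ) p.1) *
      ∑ f : Fin n → EdgeP Γ ⊕ Unit,
        (((ah Γ).submatrix id f).det : MvPolynomial (Fin n) ℚ) ^ 2 *
          ∏ v, dw (X : Fin n → MvPolynomial (Fin n) ℚ) Γ (f v) := by
  let R0 := MvPolynomial (Fin n) ℚ
  let K := FractionRing R0
  have : CharZero K := charZero_of_injective_algebraMap (IsFractionRing.injective R0 K)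
  let φ : R0 →+* K := algebraMap R0 K
  have hφ : Function.Injective φ := IsFractionRing.injective R0 K
  let z : Fin n → K := fun v => φ (X v)
  have hz : ∀ v, z v ≠ 0 := by
    intro v h
    have : (X v : R0) = 0 := hφ (by rw [map_zero]; exact h)
    exact MvPolynomial.X_ne_zero v this
  have hs : ∑ a, z a ≠ 0 := by
    intro h
    have h1 : φ (∑ a, (X a : R0)) = φ 0 := by rw [map_sum, map_zero]; exact h
    have h2 := hφ h1
    have h3 := congrArg (MvPolynomial.eval (fun _ => (1 : ℚ))) h2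
    simp only [map_sum, MvPolynomial.eval_X, map_zero, Finset.sum_const, Finset.card_univ,
      Fintype.card_fin, nsmul_eq_mul, mul_one] at h3
    have : (n : ℚ) ≠ 0 := by exact_mod_cast NeZero.ne n
    exact this h3
  apply hφ
  have hw3 : ∀ t, φ (w3 (X : Fin n → R0) t) = w3 z t := by
    intro t; simp [w3, z]
  have hw2 : ∀ t, φ (w2 (X : Fin n → R0) t) = w2 z t := by
    intro t; simp [w2, z]
  have hdw : ∀ t, φ (dw (X : Fin n → R0) Γ t) = dw z Γ t := by
    intro t
    rcases t with t | t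
    · simp [dw, hw2]
    · simp [dw]
  have h := main_field z Γ hz hs hcard
  simp only [map_mul, map_sum, map_prod, map_pow, map_natCast, map_intCast, map_ofNat, hw3, hw2,
    hdw]
  exact h

/-- exponent vectors -/
noncomputable def e3 (t : Fin n × Fin n × Fin n) : Fin n →₀ ℕ :=
  Finsupp.single t.1 1 + Finsupp.single t.2.1 1 + Finsupp.single t.2.2 1

noncomputable def e2 (p : Fin n × Fin n) : Fin n →₀ ℕ :=
  Finsupp.single p.1 1 + Finsupp.single p.2 1

noncomputable def ed (Γ : SimpleGraph (Fin n)) : EdgeP Γ ⊕ Unit → (Fin n →₀ ℕ) :=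
  Sum.elim (fun e => e2 e.1) (fun _ => 0)

theorem w3_mono (R : Type*) [CommRing R] (t : Fin n × Fin n × Fin n) :
    w3 (X : Fin n → MvPolynomial (Fin n) R) t = monomial (e3 t) 1 := by
  simp only [w3, e3, X, monomial_mul, one_mul]

theorem w2_mono (R : Type*) [CommRing R] (t : Fin n × Fin n) :
    w2 (X : Fin n → MvPolynomial (Fin n) R) t = monomial (e2 t) 1 := by
  simp only [w2, e2, X, monomial_mul, one_mul]

theorem dw_mono (R : Type*) [CommRing R] (Γ : SimpleGraph (Fin n)) (t : EdgeP Γ ⊕ Unit) :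
    dw (X : Fin n → MvPolynomial (Fin n) R) Γ t = monomial (ed Γ t) 1 := by
  rcases t with t | t
  · simp [dw, ed, w2_mono]
  · simp [dw, ed]

theorem prod_mono {R ι : Type*} [CommRing R] [Fintype ι] (d : ι → (Fin n →₀ ℕ)) :
    ∏ i, (monomial (d i) (1 : R)) = monomial (∑ i, d i) 1 := by
  rw [MvPolynomial.monomial_sum_one]

theorem support_lemma {ι κ : Type*} [Fintype ι] [Fintype κ] (a : ι → ℚ) (b : κ → ℚ)
    (ha : ∀ i, 0 ≤ a i) (d : ι → (Fin n →₀ ℕ)) (d' : κ → (Fin n →₀ ℕ))
    (h : ∑ i, monomial (d i) (a i) = ∑ k, monomial (d' k) (b k)) (i : ι) (hi : a i ≠ 0) :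
    ∃ k, b k ≠ 0 ∧ d' k = d i := by
  classical
  by_contra hcon
  push Not at hcon
  have h1 := congrArg (MvPolynomial.coeff (d i)) h
  rw [MvPolynomial.coeff_sum, MvPolynomial.coeff_sum] at h1
  simp only [MvPolynomial.coeff_monomial] at h1
  have h2 : ∑ k, (if d' k = d i then b k else 0) = 0 := by
    apply Finset.sum_eq_zero
    intro k _
    by_cases hb : b k = 0
    · simp [hb]
    · simp [hcon k hb]
  rw [h2] at h1
  have h3 : a i ≤ ∑ j, (if d j = d i then a j else 0) := by
    have := Finset.single_le_sum (f := fun j => if d j = d i then a j else 0)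
      (fun j _ => by split_ifs; exacts [ha j, le_rfl]) (Finset.mem_univ i)
    simpa using this
  have h4 : 0 < a i := lt_of_le_of_ne (ha i) (Ne.symm hi)
  linarith


open scoped Classical in
theorem lhs_mono (Γ : SimpleGraph (Fin n)) :
    (n.factorial : MvPolynomial (Fin n) ℚ) * (∏ v, X v) *
      ∑ c : NonEdge Γ → (Fin n × Fin n × Fin n),
        (((bm Γ).submatrix id c).det : MvPolynomial (Fin n) ℚ) ^ 2 *
          ∏ p, w3 (X : Fin n → MvPolynomial (Fin n) ℚ) (c p) =
    ∑ c : NonEdge Γ → (Fin n × Fin n × Fin n),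
      monomial (∑ v, Finsupp.single v 1 + ∑ p, e3 (c p))
        ((n.factorial : ℚ) * (((bm Γ).submatrix id c).det : ℚ) ^ 2) := by
  rw [Finset.mul_sum]
  refine Finset.sum_congr rfl fun c _ => ?_
  have h1 : (∏ v, (X v : MvPolynomial (Fin n) ℚ)) = monomial (∑ v, Finsupp.single v 1) 1 := by
    rw [← prod_mono]; rfl
  have h2 : ∏ p, w3 (X : Fin n → MvPolynomial (Fin n) ℚ) (c p) = monomial (∑ p, e3 (c p)) 1 := by
    rw [← prod_mono]
    exact Finset.prod_congr rfl fun p _ => w3_mono ℚ _
  have h3 : (n.factorial : MvPolynomial (Fin n) ℚ) = C (n.factorial : ℚ) := by simp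
  have h4 : (((bm Γ).submatrix id c).det : MvPolynomial (Fin n) ℚ) =
      C (((bm Γ).submatrix id c).det : ℚ) := by simp
  rw [h1, h2, h3, h4, ← C_pow, C_mul_monomial, C_mul_monomial, monomial_mul]
  congr 1
  ring

open scoped Classical in
theorem rhs_mono (Γ : SimpleGraph (Fin n)) [NeZero n] (k : ℕ) :
    6 ^ Fintype.card (NonEdge Γ) *
      ((Fintype.card (NonEdge Γ)).factorial : MvPolynomial (Fin n) ℚ) *
      (∑ a, X a) ^ k *
      (∏ p : NonEdge Γ, w2 (X : Fin n → MvPolynomial (Fin n) ℚ) p.1) *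
      ∑ f : Fin n → EdgeP Γ ⊕ Unit,
        (((ah Γ).submatrix id f).det : MvPolynomial (Fin n) ℚ) ^ 2 *
          ∏ v, dw (X : Fin n → MvPolynomial (Fin n) ℚ) Γ (f v) =
    ∑ x : (Fin k → Fin n) × (Fin n → EdgeP Γ ⊕ Unit),
      monomial (∑ j, Finsupp.single (x.1 j) 1 + ∑ p : NonEdge Γ, e2 p.1 + ∑ v, ed Γ (x.2 v))
        ((6 : ℚ) ^ Fintype.card (NonEdge Γ) * ((Fintype.card (NonEdge Γ)).factorial : ℚ) *
          (((ah Γ).submatrix id x.2).det : ℚ) ^ 2) := by
  have h0 : (∑ a, (X a : MvPolynomial (Fin n) ℚ)) ^ k =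
      ∑ μ : Fin k → Fin n, monomial (∑ j, Finsupp.single (μ j) 1) 1 := by
    have : (∑ a, (X a : MvPolynomial (Fin n) ℚ)) ^ k = ∏ _j : Fin k, ∑ a, X a := by
      rw [Finset.prod_const, Finset.card_univ, Fintype.card_fin]
    rw [this, Finset.prod_univ_sum, Fintype.piFinset_univ]
    refine Finset.sum_congr rfl fun μ _ => ?_
    rw [← prod_mono]; rfl
  have aux : ∀ (A B T : MvPolynomial (Fin n) ℚ) (g : (Fin k → Fin n) → MvPolynomial (Fin n) ℚ),
      A * (∑ μ, g μ) * B * T = ∑ μ, A * g μ * B * T := by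
    intro A B T g
    rw [Finset.mul_sum, Finset.sum_mul, Finset.sum_mul]
  rw [h0, aux, Fintype.sum_prod_type]
  refine Finset.sum_congr rfl fun μ _ => ?_
  rw [Finset.mul_sum]
  refine Finset.sum_congr rfl fun f _ => ?_
  have h1 : (∏ p : NonEdge Γ, w2 (X : Fin n → MvPolynomial (Fin n) ℚ) p.1) =
      monomial (∑ p : NonEdge Γ, e2 p.1) 1 := by
    rw [← prod_mono]
    exact Finset.prod_congr rfl fun p _ => w2_mono ℚ _
  have h2 : ∏ p, dw (X : Fin n → MvPolynomial (Fin n) ℚ) Γ (f p) =
      monomial (∑ p, ed Γ (f p)) 1 := by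
    rw [← prod_mono]
    exact Finset.prod_congr rfl fun p _ => dw_mono ℚ _ _
  have h3 : ((Fintype.card (NonEdge Γ)).factorial : MvPolynomial (Fin n) ℚ) =
      C ((Fintype.card (NonEdge Γ)).factorial : ℚ) := by simp
  have h4 : (((ah Γ).submatrix id f).det : MvPolynomial (Fin n) ℚ) =
      C (((ah Γ).submatrix id f).det : ℚ) := by simp
  have h5 : (6 : MvPolynomial (Fin n) ℚ) = C (6 : ℚ) := (map_ofNat C 6).symm
  rw [h1, h2, h3, h4, h5, ← C_pow, ← C_pow, ← C_mul, C_mul_monomial, C_mul_monomial, monomial_mul,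
    monomial_mul]
  congr 1
  ring

open scoped Classical in
theorem fwd [NeZero n] (Γ : SimpleGraph (Fin n)) (hcard : n ≤ Fintype.card (NonEdge Γ) + 2)
    (c : NonEdge Γ → (Fin n × Fin n × Fin n)) (hc : ((bm Γ).submatrix id c).det ≠ 0) :
    ∃ (μ : Fin (Fintype.card (NonEdge Γ) + 2 - n) → Fin n) (f : Fin n → EdgeP Γ ⊕ Unit),
      ((ah Γ).submatrix id f).det ≠ 0 ∧
      ∑ j, Finsupp.single (μ j) 1 + ∑ p : NonEdge Γ, e2 p.1 + ∑ v, ed Γ (f v) =
        ∑ v, Finsupp.single v 1 + ∑ p, e3 (c p) := by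
  have h := main_poly Γ hcard
  rw [lhs_mono, rhs_mono] at h
  obtain ⟨x, hx1, hx2⟩ := support_lemma _ _ (fun c => by positivity) _ _ h c (by
    apply mul_ne_zero
    · exact_mod_cast Nat.factorial_ne_zero n
    · exact pow_ne_zero _ (by exact_mod_cast hc))
  refine ⟨x.1, x.2, ?_, hx2⟩
  intro h0
  apply hx1
  simp [h0]

open scoped Classical in
theorem bwd [NeZero n] (Γ : SimpleGraph (Fin n)) (hcard : n ≤ Fintype.card (NonEdge Γ) + 2)
    (μ : Fin (Fintype.card (NonEdge Γ) + 2 - n) → Fin n) (f : Fin n → EdgeP Γ ⊕ Unit)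
    (hf : ((ah Γ).submatrix id f).det ≠ 0) :
    ∃ c : NonEdge Γ → (Fin n × Fin n × Fin n), ((bm Γ).submatrix id c).det ≠ 0 ∧
      ∑ v, Finsupp.single v 1 + ∑ p, e3 (c p) =
      ∑ j, Finsupp.single (μ j) 1 + ∑ p : NonEdge Γ, e2 p.1 + ∑ v, ed Γ (f v) := by
  have h := main_poly Γ hcard
  rw [lhs_mono, rhs_mono] at h
  obtain ⟨c, hx1, hx2⟩ := support_lemma _ _ (fun x => by positivity) _ _ h.symm (μ, f) (by
    apply mul_ne_zero
    · apply mul_ne_zero
      · positivity
      · exact_mod_cast Nat.factorial_ne_zero _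
    · exact pow_ne_zero _ (by exact_mod_cast hf))
  refine ⟨c, ?_, hx2⟩
  intro h0
  apply hx1
  simp [h0]

end Poly


section Comb

/-- degree vector of a graph -/
noncomputable def degv (T : SimpleGraph (Fin n)) : Fin n →₀ ℕ :=
  ∑ v, Finsupp.single v (T.neighborSet v).ncard

theorem sum_ah_inl [NeZero n] (Γ : SimpleGraph (Fin n)) (x : Fin n → ℤ) (hx : x 0 = 0)
    (e : EdgeP Γ) : ∑ w, x w * ah Γ w (Sum.inl e) = x e.1.2 - x e.1.1 := by
  have h1 : ∀ w, x w * ah Γ w (Sum.inl e) =
      (if e.1.2 = w then x w else 0) - (if e.1.1 = w then x w else 0) := by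
    intro w
    simp only [ah, Sum.elim_inl, inc]
    by_cases hw : w = 0
    · subst hw; simp [hx]
    · simp only [hw, if_false]
      split_ifs <;> ring
  simp_rw [h1]
  rw [Finset.sum_sub_distrib]
  simp

theorem sum_ah_inr [NeZero n] (Γ : SimpleGraph (Fin n)) (x : Fin n → ℤ)
    (e : Unit) : ∑ w, x w * ah Γ w (Sum.inr e) = x 0 := by
  simp [ah]

open scoped Classical in
theorem sum_e2 (T : SimpleGraph (Fin n)) : ∑ p : EdgeP T, e2 p.1 = degv T := by
  rw [sum_sub (fun p : Fin n × Fin n => p.1 < p.2 ∧ T.Adj p.1 p.2) e2]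
  ext w
  rw [degv, Finsupp.finsetSum_apply, Finsupp.finsetSum_apply, Fintype.sum_prod_type]
  have h1 : ∀ a b : Fin n, (if (a, b).1 < (a, b).2 ∧ T.Adj (a, b).1 (a, b).2 then e2 (a, b) else 0 : Fin n →₀ ℕ) w
      = (if a = w then (if a < b ∧ T.Adj a b then 1 else 0) else 0) +
        (if b = w then (if a < b ∧ T.Adj a b then 1 else 0) else 0) := by
    intro a b
    by_cases h : a < b ∧ T.Adj a b
    · simp only [h, and_self, if_true, e2, Finsupp.add_apply, Finsupp.single_apply]
    · rw [if_neg h]; simp [h]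
  simp_rw [h1]
  simp only [Finset.sum_add_distrib]
  rw [Finset.sum_comm]
  simp only [Finset.sum_ite_eq', Finset.mem_univ, if_true, Finsupp.single_apply]
  rw [← Finset.sum_add_distrib]
  have h2 : (T.neighborSet w).ncard = ∑ u, if T.Adj w u then 1 else 0 := by
    rw [Set.ncard_eq_toFinset_card', Finset.card_eq_sum_ones, ← Finset.sum_filter]
    congr 1
    ext u
    simp
  rw [h2]
  refine Finset.sum_congr rfl fun u _ => ?_
  rcases lt_trichotomy w u with h | h | h
  · simp [h, not_lt.mpr h.le]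
  · subst h; simp
  · simp [h, not_lt.mpr h.le, T.adj_comm]

/-- pairs `p.1 < p.2` of adjacent vertices correspond to edges -/
noncomputable def edgeEquiv (T : SimpleGraph (Fin n)) : EdgeP T ≃ T.edgeSet := by
  refine Equiv.ofBijective (fun p => ⟨s(p.1.1, p.1.2), p.2.2⟩) ⟨?_, ?_⟩
  · rintro ⟨⟨a, b⟩, hab, hab2⟩ ⟨⟨c, d⟩, hcd, hcd2⟩ h0
    have h : s(a, b) = s(c, d) := congrArg Subtype.val h0
    rw [Sym2.eq_iff] at h
    simp only at hab hcd
    rcases h with h | h
    · exact Subtype.ext (Prod.ext h.1 h.2)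
    · exfalso
      rw [h.1, h.2] at hab
      exact absurd hab (not_lt.mpr hcd.le)
  · rintro ⟨e, he⟩
    induction e with
    | _ a b =>
      rw [SimpleGraph.mem_edgeSet] at he
      rcases lt_or_gt_of_ne he.ne with h | h
      · exact ⟨⟨(a, b), h, he⟩, rfl⟩
      · exact ⟨⟨(b, a), h, he.symm⟩, Subtype.ext Sym2.eq_swap⟩

open scoped Classical in
theorem tree_iff (T : SimpleGraph (Fin n)) :
    T.IsTree ↔ T.Connected ∧ Fintype.card (EdgeP T) + 1 = n := by
  rw [SimpleGraph.isTree_iff_connected_and_card, Nat.card_eq_fintype_card (α := Fin n),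
    Fintype.card_fin, ← Nat.card_congr (edgeEquiv T), Nat.card_eq_fintype_card]

open scoped Classical in
theorem det_of_tree [NeZero n] (Γ T : SimpleGraph (Fin n)) (hT : T ≤ Γ) (ht : T.IsTree) :
    ∃ f : Fin n → EdgeP Γ ⊕ Unit, ((ah Γ).submatrix id f).det ≠ 0 ∧
      ∑ v, ed Γ (f v) = degv T := by
  obtain ⟨hc, hcard⟩ := (tree_iff T).1 ht
  have h1 : Fintype.card (Fin n) = Fintype.card (EdgeP T ⊕ Unit) := by
    rw [Fintype.card_fin, Fintype.card_sum, Fintype.card_unit, hcard]
  let f0 : Fin n ≃ EdgeP T ⊕ Unit := Fintype.equivOfCardEq h1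
  let g : EdgeP T ⊕ Unit → EdgeP Γ ⊕ Unit :=
    Sum.map (fun e => ⟨e.1, e.2.1, hT e.2.2⟩) id
  refine ⟨fun v => g (f0 v), ?_, ?_⟩
  · intro hdet
    obtain ⟨x, hx0, hx⟩ := Matrix.exists_vecMul_eq_zero_iff.2 hdet
    apply hx0
    have hcol : ∀ y : EdgeP T ⊕ Unit, ∑ w, x w * ah Γ w (g y) = 0 := by
      intro y
      have := congrFun hx (f0.symm y)
      simpa [Matrix.vecMul, dotProduct] using this
    have hxz : x 0 = 0 := by
      have := hcol (Sum.inr ())
      simpa [g, sum_ah_inr] using this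
    have hadj : ∀ a b : Fin n, T.Adj a b → x a = x b := by
      intro a b hab
      rcases lt_or_gt_of_ne hab.ne with h | h
      · have := hcol (Sum.inl ⟨(a, b), h, hab⟩)
        simp only [g, Sum.map_inl] at this
        rw [sum_ah_inl Γ x hxz] at this
        simp only at this
        linarith
      · have := hcol (Sum.inl ⟨(b, a), h, hab.symm⟩)
        simp only [g, Sum.map_inl] at this
        rw [sum_ah_inl Γ x hxz] at this
        simp only at this
        linarith
    funext w
    obtain ⟨p⟩ := hc.preconnected 0 w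
    have : ∀ (a b : Fin n) (p : T.Walk a b), x a = x b := by
      intro a b p
      induction p with
      | nil => rfl
      | cons h p ih => rw [hadj _ _ h, ih]
    rw [← this 0 w p, hxz]
    rfl
  · rw [Equiv.sum_comp f0 (fun y => ed Γ (g y)), Fintype.sum_sum_type, ← sum_e2 T]
    simp [g, ed]

open scoped Classical in
theorem finish [NeZero n] (Γ T : SimpleGraph (Fin n)) (f : Fin n → EdgeP Γ ⊕ Unit) (v0 : Fin n)
    (hv0 : f v0 = Sum.inr ()) (h : {v // v ≠ v0} → EdgeP T)
    (hh : ∀ v : {v // v ≠ v0}, ∃ e : EdgeP Γ, f v.1 = Sum.inl e ∧ e.1 = (h v).1)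
    (hbij : Function.Bijective h) (hconn : T.Connected) :
    T.IsTree ∧ ∑ v, ed Γ (f v) = degv T := by
  refine ⟨(tree_iff T).2 ⟨hconn, ?_⟩, ?_⟩
  · rw [← Fintype.card_of_bijective hbij]
    have := Fintype.card_subtype_compl (fun v : Fin n => v = v0)
    rw [Fintype.card_subtype_eq, Fintype.card_fin] at this
    have hn : 0 < n := Nat.pos_of_ne_zero (NeZero.ne n)
    have h5 : Fintype.card {v : Fin n // v ≠ v0} = n - 1 := this
    omega
  · rw [← sum_e2 T, ← Equiv.sum_comp (Equiv.ofBijective h hbij) (fun p : EdgeP T => e2 p.1)]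
    have h6 := Fintype.sum_eq_add_sum_subtype_ne (fun v => ed Γ (f v)) v0
    rw [h6, hv0]
    simp only [ed, Sum.elim_inr, zero_add]
    refine Finset.sum_congr rfl fun v _ => ?_
    obtain ⟨e, he1, he2⟩ := hh v
    rw [he1]
    simp only [Sum.elim_inl, Equiv.ofBijective_apply]
    rw [he2]


open scoped Classical in
theorem tree_of_det [NeZero n] (Γ : SimpleGraph (Fin n)) (f : Fin n → EdgeP Γ ⊕ Unit)
    (hf : ((ah Γ).submatrix id f).det ≠ 0) :
    ∃ T : SimpleGraph (Fin n), T ≤ Γ ∧ T.IsTree ∧ ∑ v, ed Γ (f v) = degv T := by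
  have hinj : Function.Injective f := by
    intro a b hab
    by_contra hne
    apply hf
    apply Matrix.det_zero_of_column_eq hne
    intro i
    simp [hab]
  obtain ⟨v0, hv0⟩ : ∃ v0, f v0 = Sum.inr () := by
    by_contra hcon
    push Not at hcon
    apply hf
    apply Matrix.det_eq_zero_of_row_eq_zero (0 : Fin n)
    intro j
    rcases hj : f j with e | e
    · simp [hj, ah]
    · exact absurd hj (hcon j)
  have hinl : ∀ v, v ≠ v0 → ∃ e, f v = Sum.inl e := by
    intro v hv
    rcases hj : f v with e | e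
    · exact ⟨e, rfl⟩
    · exact absurd (hinj (hj.trans hv0.symm)) hv
  let T : SimpleGraph (Fin n) :=
    { Adj := fun a b => ∃ e : EdgeP Γ, (∃ v, f v = Sum.inl e) ∧ (e.1 = (a, b) ∨ e.1 = (b, a))
      symm := by
        refine ⟨?_⟩
        rintro a b ⟨e, hv, h⟩
        exact ⟨e, hv, h.symm⟩
      loopless := by
        refine ⟨?_⟩
        rintro a ⟨e, hv, h⟩
        have h2 := e.2.1
        rcases h with h | h <;> rw [h] at h2 <;> exact lt_irrefl _ h2 }
  have hTΓ : T ≤ Γ := by
    rintro a b ⟨e, hv, h⟩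
    have h2 := e.2.2
    rcases h with h | h
    · rw [h] at h2; exact h2
    · rw [h] at h2; exact h2.symm
  have hT : ∀ (p : Fin n × Fin n) (hp : p.1 < p.2), T.Adj p.1 p.2 →
      ∃ v, ∃ e : EdgeP Γ, f v = Sum.inl e ∧ e.1 = p := by
    rintro p hp ⟨e, ⟨v, hv⟩, h⟩
    rcases h with h | h
    · exact ⟨v, e, hv, h⟩
    · exfalso
      have h2 := e.2.1
      rw [h] at h2
      exact absurd hp (not_lt.mpr (le_of_lt h2))
  -- connectivity
  have hconn : T.Connected := by
    let x : Fin n → ℤ := fun v => if T.Reachable 0 v then 0 else 1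
    have hx0 : x 0 = 0 := by simp [x]
    have hx : x ᵥ* ((ah Γ).submatrix id f) = 0 := by
      funext v
      rcases hj : f v with e | e
      · have h1 := sum_ah_inl Γ x hx0 e
        have h2 : T.Adj e.1.1 e.1.2 := ⟨e, ⟨v, hj⟩, Or.inl rfl⟩
        have h3 : T.Reachable 0 e.1.1 ↔ T.Reachable 0 e.1.2 :=
          ⟨fun h => h.trans h2.reachable, fun h => h.trans h2.symm.reachable⟩
        have h4 : x e.1.2 - x e.1.1 = 0 := by
          simp only [x]
          by_cases h5 : T.Reachable 0 e.1.1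
          · rw [if_pos h5, if_pos (h3.1 h5)]; ring
          · rw [if_neg h5, if_neg (fun h => h5 (h3.2 h))]; ring
        rw [h4] at h1
        simpa [Matrix.vecMul, dotProduct, hj] using h1
      · have h1 := sum_ah_inr Γ x e
        rw [hx0] at h1
        simpa [Matrix.vecMul, dotProduct, hj] using h1
    have hx2 := Matrix.eq_zero_of_vecMul_eq_zero hf hx
    have hreach : ∀ v, T.Reachable 0 v := by
      intro v
      by_contra hv
      have := congrFun hx2 v
      simp [x, hv] at this
    exact { preconnected := fun a b => (hreach a).symm.trans (hreach b), nonempty := ⟨0⟩ }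
  -- bijection
  have hex : ∀ v : {v // v ≠ v0}, ∃ p : EdgeP T, ∃ e : EdgeP Γ, f v.1 = Sum.inl e ∧ e.1 = p.1 := by
    rintro ⟨v, hv⟩
    obtain ⟨e, he⟩ := hinl v hv
    exact ⟨⟨e.1, e.2.1, ⟨e, ⟨v, he⟩, Or.inl rfl⟩⟩, e, he, rfl⟩
  choose h hh using hex
  have hbij : Function.Bijective h := by
    constructor
    · intro a b hab
      obtain ⟨e, he1, he2⟩ := hh a
      obtain ⟨e', he1', he2'⟩ := hh b
      apply Subtype.ext
      apply hinj
      rw [he1, he1']
      congr 1
      apply Subtype.ext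
      rw [he2, he2', hab]
    · rintro ⟨p, hp, hp2⟩
      obtain ⟨v, e, hv, he⟩ := hT p hp hp2
      have hvv : v ≠ v0 := by
        rintro rfl
        rw [hv0] at hv
        exact absurd hv (by simp)
      refine ⟨⟨v, hvv⟩, ?_⟩
      obtain ⟨e', he1, he2⟩ := hh ⟨v, hvv⟩
      apply Subtype.ext
      rw [← he2]
      simp only at he1
      rw [hv] at he1
      rw [← Sum.inl_injective he1, he]
  exact ⟨T, hTΓ, finish Γ T f v0 hv0 h hh hbij hconn⟩

end Comb

section Fin

variable {n : ℕ} (k : Type*) [Field k]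

theorem entry_eq (Γ : SimpleGraph (Fin n)) (p : NonEdge Γ) (t : Triple n) :
    w2 (X : Fin n → MvPolynomial (Fin n) k) p.1 * koszulMatrix k Γ p t =
      ((bm Γ p t.1 : ℤ) : MvPolynomial (Fin n) k) * w3 X t.1 := by
  obtain ⟨⟨x, y⟩, hxy, hadj⟩ := p
  obtain ⟨⟨a, b, c⟩, hab, hbc⟩ := t
  simp only at hxy hab hbc
  have hac := hab.trans hbc
  have r1 : ¬ ((x, y) = (b, a)) := by
    intro h; simp only [Prod.mk.injEq] at h; rw [h.1, h.2] at hxy; exact absurd hxy (not_lt.2 hab.le)
  have r2 : ¬ ((x, y) = (c, a)) := by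
    intro h; simp only [Prod.mk.injEq] at h; rw [h.1, h.2] at hxy; exact absurd hxy (not_lt.2 hac.le)
  have r3 : ¬ ((x, y) = (c, b)) := by
    intro h; simp only [Prod.mk.injEq] at h; rw [h.1, h.2] at hxy; exact absurd hxy (not_lt.2 hbc.le)
  simp only [koszulMatrix, bm, col, dl, w2, w3, if_neg r1, if_neg r2, if_neg r3, sub_zero]
  push_cast
  by_cases h1 : (x, y) = (a, b)
  · simp only [Prod.mk.injEq] at h1
    obtain ⟨rfl, rfl⟩ := h1
    simp [hbc.ne, hab.ne]
  · by_cases h2 : (x, y) = (a, c)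
    · simp only [Prod.mk.injEq] at h2
      obtain ⟨rfl, rfl⟩ := h2
      simp [hbc.ne', hab.ne]
      ring
    · by_cases h3 : (x, y) = (b, c)
      · simp only [Prod.mk.injEq] at h3
        obtain ⟨rfl, rfl⟩ := h3
        simp [hab.ne']
        ring
      · simp [h1, h2, h3]

open scoped Classical in
theorem minor_eq (Γ : SimpleGraph (Fin n)) (c : NonEdge Γ → Triple n) :
    monomial (∑ p : NonEdge Γ, e2 p.1) (1 : k) * ((koszulMatrix k Γ).submatrix id c).det =
      C ((((bm Γ).submatrix id (fun p => (c p).1)).det : ℤ) : k) *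
        monomial (∑ p, e3 (c p).1) (1 : k) := by
  have h1 : diagonal (fun p : NonEdge Γ => w2 (X : Fin n → MvPolynomial (Fin n) k) p.1) *
      (koszulMatrix k Γ).submatrix id c =
      (((bm Γ).submatrix id (fun p => (c p).1)).map (Int.cast : ℤ → MvPolynomial (Fin n) k)) *
        diagonal (fun p => w3 X (c p).1) := by
    ext1 p q
    rw [Matrix.diagonal_mul, Matrix.mul_diagonal]
    exact entry_eq k Γ p (c q)
  have h2 := congrArg Matrix.det h1
  rw [det_mul, det_mul, det_diagonal, det_diagonal] at h2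
  have h3 : (((bm Γ).submatrix id (fun p => (c p).1)).map
      (Int.cast : ℤ → MvPolynomial (Fin n) k)).det =
      C ((((bm Γ).submatrix id (fun p => (c p).1)).det : ℤ) : k) := by
    have := (Int.castRingHom (MvPolynomial (Fin n) k)).map_det
      ((bm Γ).submatrix id (fun p => (c p).1))
    simp only [eq_intCast] at this
    rw [map_intCast, this]
    rfl
  rw [h3] at h2
  rw [← prod_mono, ← prod_mono]
  simp_rw [← w2_mono, ← w3_mono]
  exact h2

/-- sorting an ordered triple -/
theorem sort_triple (t : Fin n × Fin n × Fin n) (ht : ∃ p, col p t ≠ 0) :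
    ∃ t' : Triple n, ∃ ε : ℤ, (ε = 1 ∨ ε = -1) ∧ (∀ p, col p t = ε * col p t'.1) ∧
      e3 t'.1 = e3 t := by
  obtain ⟨a, b, c⟩ := t
  have hab : a ≠ b := by
    rintro rfl
    obtain ⟨p, hp⟩ := ht
    apply hp
    simp only [col, dl]; ring
  have hbc : b ≠ c := by
    rintro rfl
    obtain ⟨p, hp⟩ := ht
    apply hp
    simp only [col, dl]; ring
  have hac : a ≠ c := by
    rintro rfl
    obtain ⟨p, hp⟩ := ht
    apply hp
    simp only [col, dl]; ring
  rcases lt_or_gt_of_ne hab with h1 | h1 <;> rcases lt_or_gt_of_ne hbc with h2 | h2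
  · exact ⟨⟨(a, b, c), h1, h2⟩, 1, Or.inl rfl, fun p => by ring, rfl⟩
  · rcases lt_or_gt_of_ne hac with h3 | h3
    · exact ⟨⟨(a, c, b), h3, h2⟩, -1, Or.inr rfl, fun p => by simp only [col, dl]; ring,
        by simp only [e3]; abel⟩
    · exact ⟨⟨(c, a, b), h3, h1⟩, 1, Or.inl rfl, fun p => by simp only [col, dl]; ring,
        by simp only [e3]; abel⟩
  · rcases lt_or_gt_of_ne hac with h3 | h3
    · exact ⟨⟨(b, a, c), h1, h3⟩, -1, Or.inr rfl, fun p => by simp only [col, dl]; ring,
        by simp only [e3]; abel⟩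
    · exact ⟨⟨(b, c, a), h2, h3⟩, 1, Or.inl rfl, fun p => by simp only [col, dl]; ring,
        by simp only [e3]; abel⟩
  · exact ⟨⟨(c, b, a), h2, h1⟩, -1, Or.inr rfl, fun p => by simp only [col, dl]; ring,
        by simp only [e3]; abel⟩

open scoped Classical in
theorem sort_all (Γ : SimpleGraph (Fin n)) (c : NonEdge Γ → Fin n × Fin n × Fin n)
    (hc : ((bm Γ).submatrix id c).det ≠ 0) :
    ∃ c' : NonEdge Γ ↪ Triple n, ((bm Γ).submatrix id (fun p => (c' p).1)).det ≠ 0 ∧
      ∑ p, e3 (c' p).1 = ∑ p, e3 (c p) := by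
  have h1 : ∀ q, ∃ p, col p (c q) ≠ 0 := by
    intro q
    by_contra hcon
    push Not at hcon
    apply hc
    apply Matrix.det_eq_zero_of_column_eq_zero q
    intro p
    exact hcon p.1
  have h2 := fun q => sort_triple (c q) (h1 q)
  choose c' ε hε hcol he using h2
  have hdet : ((bm Γ).submatrix id (fun p => (c' p).1)).det ≠ 0 := by
    intro h0
    apply hc
    have : (bm Γ).submatrix id c = ((bm Γ).submatrix id (fun p => (c' p).1)) * diagonal ε := by
      ext p q
      rw [Matrix.mul_diagonal]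
      simp only [Matrix.submatrix_apply, bm, id]
      rw [hcol q p.1]; ring
    rw [this, det_mul, h0, zero_mul]
  refine ⟨⟨c', ?_⟩, hdet, ?_⟩
  · intro a b hab
    by_contra hne
    apply hdet
    apply Matrix.det_zero_of_column_eq hne
    intro i
    simp [hab]
  · exact Finset.sum_congr rfl fun p _ => he p

theorem pow_le (j : ℕ) : (maxIdeal k n) ^ j ≤
    Ideal.span (Set.range fun μ : Fin j → Fin n => ∏ i, (X (μ i) : MvPolynomial (Fin n) k)) := by
  induction j with
  | zero =>
    rw [pow_zero]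
    have : (1 : MvPolynomial (Fin n) k) ∈ Ideal.span (Set.range fun μ : Fin 0 → Fin n =>
        ∏ i, (X (μ i) : MvPolynomial (Fin n) k)) :=
      Ideal.subset_span ⟨Fin.elim0, by simp⟩
    rw [(Ideal.eq_top_iff_one _).2 this]
    exact le_top
  | succ j ih =>
    rw [pow_succ]
    refine (Ideal.mul_mono ih le_rfl).trans ?_
    rw [maxIdeal, Ideal.span_mul_span']
    apply Ideal.span_mono
    rintro _ ⟨_, ⟨μ, rfl⟩, _, ⟨i, rfl⟩, rfl⟩
    refine ⟨Fin.snoc μ i, ?_⟩
    simp [Fin.prod_univ_castSucc]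

theorem degv_eq [NeZero n] (hn : 3 ≤ n) (T : SimpleGraph (Fin n)) (hT : T.IsTree) :
    degv T = ∑ v, Finsupp.single v 1 +
      ∑ v, Finsupp.single v ((T.neighborSet v).ncard - 1) := by
  classical
  rw [degv, ← Finset.sum_add_distrib]
  refine Finset.sum_congr rfl fun v _ => ?_
  rw [← Finsupp.single_add]
  congr 1
  have : Nontrivial (Fin n) := Fin.nontrivial_iff_two_le.2 (by omega)
  have h1 := hT.1.preconnected.degree_pos_of_nontrivial v
  have h2 : (T.neighborSet v).ncard = T.degree v := by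
    rw [Set.ncard_eq_toFinset_card', SimpleGraph.degree, SimpleGraph.neighborFinset]
  omega

theorem treeMonomial_eq (T : SimpleGraph (Fin n)) :
    treeMonomial k T = monomial (∑ v, Finsupp.single v ((T.neighborSet v).ncard - 1)) 1 := by
  rw [← prod_mono, treeMonomial]
  refine Finset.prod_congr rfl fun v _ => ?_
  rw [X_pow_eq_monomial]

theorem prodX_eq {j : ℕ} (μ : Fin j → Fin n) :
    ∏ i, (X (μ i) : MvPolynomial (Fin n) k) = monomial (∑ i, Finsupp.single (μ i) 1) 1 := by
  rw [← prod_mono]; rfl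

open scoped Classical in
theorem minor_val (Γ : SimpleGraph (Fin n)) (c : NonEdge Γ → Triple n) (T : SimpleGraph (Fin n))
    {j : ℕ} (μ : Fin j → Fin n)
    (h : ∑ p, e3 (c p).1 = ∑ p : NonEdge Γ, e2 p.1 + (∑ i, Finsupp.single (μ i) 1 +
      ∑ v, Finsupp.single v ((T.neighborSet v).ncard - 1))) :
    ((koszulMatrix k Γ).submatrix id c).det =
      C ((((bm Γ).submatrix id (fun p => (c p).1)).det : ℤ) : k) *
        (treeMonomial k T * ∏ i, (X (μ i) : MvPolynomial (Fin n) k)) := by
  have h1 := minor_eq k Γ c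
  rw [h] at h1
  have h2 : monomial (∑ p : NonEdge Γ, e2 p.1 + (∑ i, Finsupp.single (μ i) 1 +
      ∑ v, Finsupp.single v ((T.neighborSet v).ncard - 1))) (1 : k) =
      monomial (∑ p : NonEdge Γ, e2 p.1) (1 : k) *
        (treeMonomial k T * ∏ i, (X (μ i) : MvPolynomial (Fin n) k)) := by
    rw [treeMonomial_eq, prodX_eq, monomial_mul, monomial_mul, one_mul, one_mul]
    congr 2
    abel
  rw [h2] at h1
  have h3 : monomial (∑ p : NonEdge Γ, e2 p.1) (1 : k) ≠ 0 := by
    rw [Ne, monomial_eq_zero]; exact one_ne_zero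
  apply mul_left_cancel₀ h3
  rw [h1]; ring

end Fin

open scoped Classical in
/-- **Fitting ideal of the Koszul module of a graph.**  For every field `k` of characteristic `0`,
every `n ≥ 3` and every simple graph `Γ` on `n` vertices with at least `n - 2` non-edges (connected
or not), `Fitt W_Γ = I_{𝒯(Γ)} · 𝔪^{|Ē| - n + 2}`. -/
theorem result (k : Type*) [Field k] [CharZero k] (n : ℕ) (hn : 3 ≤ n) (Γ : SimpleGraph (Fin n))
    (hcard : n - 2 ≤ Nat.card (NonEdge Γ)) :
    fittIdeal k Γ = treeIdeal k Γ * maxIdeal k n ^ (Nat.card (NonEdge Γ) + 2 - n) := by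
  have : NeZero n := ⟨by omega⟩
  rw [Nat.card_eq_fintype_card] at *
  have hcard' : n ≤ Fintype.card (NonEdge Γ) + 2 := by omega
  apply le_antisymm
  · rw [fittIdeal, Ideal.span_le]
    rintro _ ⟨c, rfl⟩
    simp only [SetLike.mem_coe]
    by_cases hc : ((bm Γ).submatrix id (fun p => (c p).1)).det = 0
    · have h1 := minor_eq k Γ c
      rw [hc, Int.cast_zero, map_zero, zero_mul] at h1
      have h3 : monomial (∑ p : NonEdge Γ, e2 p.1) (1 : k) ≠ 0 := by
        rw [Ne, monomial_eq_zero]; exact one_ne_zero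
      have h4 := (mul_eq_zero.1 h1).resolve_left h3
      rw [h4]
      exact zero_mem _
    · obtain ⟨μ, f, hf, hE⟩ := fwd Γ hcard' (fun p => (c p).1) hc
      obtain ⟨T, hTΓ, hT, hd⟩ := tree_of_det Γ f hf
      rw [hd, degv_eq hn T hT] at hE
      have hE2 : ∑ p, e3 (c p).1 = ∑ p : NonEdge Γ, e2 p.1 + (∑ i, Finsupp.single (μ i) 1 +
          ∑ v, Finsupp.single v ((T.neighborSet v).ncard - 1)) := by
        have : ∑ v, Finsupp.single v 1 + ∑ p, e3 (c p).1 = ∑ v, Finsupp.single v 1 +
            (∑ p : NonEdge Γ, e2 p.1 + (∑ i, Finsupp.single (μ i) 1 +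
            ∑ v, Finsupp.single v ((T.neighborSet v).ncard - 1))) := by
          rw [← hE]; abel
        exact add_left_cancel this
      rw [minor_val k Γ c T μ hE2]
      apply Ideal.mul_mem_left
      apply Ideal.mul_mem_mul
      · exact Ideal.subset_span ⟨T, hTΓ, hT, rfl⟩
      · have h5 : ∏ i, (X (μ i) : MvPolynomial (Fin n) k) ∈
            ∏ _i : Fin (Fintype.card (NonEdge Γ) + 2 - n), maxIdeal k n :=
          Ideal.prod_mem_prod fun i _ => Ideal.subset_span ⟨μ i, rfl⟩
        rwa [Finset.prod_const, Finset.card_univ, Fintype.card_fin] at h5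
  · refine (Ideal.mul_mono le_rfl (pow_le k _)).trans ?_
    rw [treeIdeal, Ideal.span_mul_span', Ideal.span_le]
    rintro _ ⟨_, ⟨T, hTΓ, hT, rfl⟩, _, ⟨μ, rfl⟩, rfl⟩
    obtain ⟨f, hf, hd⟩ := det_of_tree Γ T hTΓ hT
    obtain ⟨c, hc, hE⟩ := bwd Γ hcard' μ f hf
    obtain ⟨c', hc', hE'⟩ := sort_all Γ c hc
    rw [← hE', hd, degv_eq hn T hT] at hE
    have hE2 : ∑ p, e3 (c' p).1 = ∑ p : NonEdge Γ, e2 p.1 + (∑ i, Finsupp.single (μ i) 1 +
        ∑ v, Finsupp.single v ((T.neighborSet v).ncard - 1)) := by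
      have : ∑ v, Finsupp.single v 1 + ∑ p, e3 (c' p).1 = ∑ v, Finsupp.single v 1 +
          (∑ p : NonEdge Γ, e2 p.1 + (∑ i, Finsupp.single (μ i) 1 +
          ∑ v, Finsupp.single v ((T.neighborSet v).ncard - 1))) := by
        rw [hE]; abel
      exact add_left_cancel this
    have hm := minor_val k Γ c' T μ hE2
    simp only [SetLike.mem_coe]
    set D : k := ((((bm Γ).submatrix id (fun p => (c' p).1)).det : ℤ) : k) with hD
    have hD0 : D ≠ 0 := by
      rw [hD]; exact_mod_cast hc'
    have h6 : treeMonomial k T * ∏ i, (X (μ i) : MvPolynomial (Fin n) k) =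
        C D⁻¹ * ((koszulMatrix k Γ).submatrix id c').det := by
      rw [hm, ← mul_assoc, ← C_mul, inv_mul_cancel₀ hD0, C_1, one_mul]
    have h7 : treeMonomial k T * ∏ i, (X (μ i) : MvPolynomial (Fin n) k) ∈ fittIdeal k Γ := by
      rw [h6]
      apply Ideal.mul_mem_left
      exact Ideal.subset_span ⟨c', rfl⟩
    exact h7

end Pool.Agent.Results.MP_15f3fd_al.FittingEquality
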